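import Pool.Agent.H219.WhC.Det
import Pool.Agent.H23R2.Lin

/-!
# The trace `K₁(K[Γ]) → HC₁(K[Γ])` over fields of characteristic zero
-/

set_option autoImplicit false

namespace Pool.Agent.Results.MP_c052b4_al.CyclicTraceFields

open H219.WhC

universe u v w

/-- an element which is conjugate to its `p ^ j`-th power is infinitely `p`-divisible -/
lemma root_of_conj {H : Type*} [Group H] {p j : ℕ} {g c : H}
    (h : c * g * c⁻¹ = g ^ p ^ j) (m : ℕ) : (c⁻¹ ^ m * g * (c⁻¹ ^ m)⁻¹) ^ p ^ (j * m) = g := by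
  induction m with
  | zero => simp
  | succ m ih =>
    have h1 : g = c⁻¹ * g ^ p ^ j * c := by
      rw [← h]
      group
    have h2 : (c⁻¹ ^ (m + 1) * g * (c⁻¹ ^ (m + 1))⁻¹) ^ p ^ j =
        c⁻¹ ^ m * g * (c⁻¹ ^ m)⁻¹ := by
      rw [conj_pow]
      conv_rhs => rw [h1]
      rw [pow_succ]
      group
    calc (c⁻¹ ^ (m + 1) * g * (c⁻¹ ^ (m + 1))⁻¹) ^ p ^ (j * (m + 1))
        = ((c⁻¹ ^ (m + 1) * g * (c⁻¹ ^ (m + 1))⁻¹) ^ p ^ j) ^ p ^ (j * m) := by
          rw [← pow_mul, ← pow_add, show j * (m + 1) = j + j * m by ring]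
      _ = g := by rw [h2, ih]

/-- Let `K` be a field of characteristic `0` and `Γ` a group such that either
(a) for every finitely generated subgroup `H` and every `g ≠ 1` in `H` there are infinitely many
primes `p` such that `g` is not conjugate in `H` to `g ^ (p ^ j)` for `j ≥ 1`; or
(b) `Γ` is torsion-free and linear over some field of characteristic `0`.
Then for every invertible matrix `A` over `K[Γ]` there is `γ ∈ Γ` such that every cyclic
`1`-cocycle `f` on `K[Γ]` whose values on pairs of group elements lie in a finitely generated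
subring of `K` (for example are integers) takes the same value on `A` and on `γ`. -/
theorem result (K : Type u) [Field K] [CharZero K] (Γ : Type v) [Group Γ]
    (hΓ : (∀ H : Subgroup Γ, H.FG → ∀ g ∈ H, g ≠ 1 →
        {p : ℕ | p.Prime ∧ ∀ j, 1 ≤ j → ∀ c ∈ H, c * g * c⁻¹ ≠ g ^ p ^ j}.Infinite) ∨
      ((∀ g : Γ, ∀ m : ℕ, 0 < m → g ^ m = 1 → g = 1) ∧
        ∃ (L : Type w) (_ : Field L) (_ : CharZero L) (N : ℕ) (φ : Γ →* GL (Fin N) L),
          Function.Injective φ))
    (n : ℕ) (A : (Matrix (Fin n) (Fin n) (MonoidAlgebra K Γ))ˣ) :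
    ∃ γ : Γ, ∀ (s : Finset K) (f : Γ → Γ → K), (∀ x y, f x y ∈ Algebra.adjoin ℤ (s : Set K)) →
      (∀ x y z : Γ, f (x * y) z - f x (y * z) + f (z * x) y = 0) → (∀ g : Γ, f 1 g = 0) →
      (∑ i, ∑ j, ((A⁻¹).val i j).coeff.sum fun g b =>
          (A.val j i).coeff.sum fun h a => b * a * f g h) = f γ⁻¹ γ := by
  obtain ⟨γ, hγ⟩ := field_main A
  refine ⟨γ, ?_⟩
  have hG : ∀ H : Subgroup Γ, H.FG → ∀ g ∈ H, g ≠ 1 →
        {p : ℕ | p.Prime ∧ ∀ j, 1 ≤ j → ∀ c ∈ H, c * g * c⁻¹ ≠ g ^ p ^ j}.Infinite := by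
    rcases hΓ with h | ⟨htf, L, iL, iC, N, φ, hφ⟩
    · exact h
    · intro H hH g hg hg1
      have : Group.FG H := (Group.fg_iff_subgroup_fg H).2 hH
      have hfin := Pool.Agent.H23R2.finite_bad_primes (H := H)
        (by
          intro g k hk hg
          apply Subtype.ext
          exact htf g.1 k hk (by simpa using congrArg Subtype.val hg))
        (φ.comp H.subtype) (hφ.comp H.subtype_injective)
      refine (Nat.infinite_setOfPred_prime.sdiff hfin).mono ?_
      rintro p ⟨hp, hgood⟩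
      have hgood' : Pool.Agent.H23R2.GoodPrime H p := by
        by_contra hcon
        exact hgood ⟨hp, hcon⟩
      refine ⟨hp, ?_⟩
      intro j hj c hc heq
      obtain ⟨k, hk⟩ := hgood'.div ⟨g, hg⟩ (fun h0 => hg1 (congrArg Subtype.val h0))
      have h1 : (⟨c, hc⟩ : H) * ⟨g, hg⟩ * (⟨c, hc⟩ : H)⁻¹ = (⟨g, hg⟩ : H) ^ p ^ j := by
        apply Subtype.ext
        simpa using heq
      have h2 := root_of_conj h1 k
      obtain ⟨l, hl⟩ := Nat.exists_eq_add_of_le (Nat.le_mul_of_pos_left k hj : k ≤ j * k)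
      rw [hl, add_comm, pow_add, pow_mul] at h2
      exact hk _ h2
  intro s f hs hf hf1
  exact hγ (hG _ (grpF_fg A)) s f hs hf hf1

end Pool.Agent.Results.MP_c052b4_al.CyclicTraceFields
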