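import Pool.Agent.H219.WhH.Nil
import Pool.Agent.H23R2.Lin

/-!
# The Dennis trace `K₁(K[Γ]) → HH₁(K[Γ])` over fields of characteristic zero
-/

set_option autoImplicit false

namespace Pool.Agent.Results.MP_c052b4_al.HochschildTraceFields

open H219.WhC H219.WhH

universe u v w

/-- Let `K` be a field of characteristic `0` and `Γ` a group such that either
(a) for every finitely generated subgroup `H` there are infinitely many primes `p` such that
`p`-th roots in `H` are unique and no `g ≠ 1` is a `p ^ k`-th power in `H` for all `k`; or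
(b) `Γ` is torsion-free and linear over some field of characteristic `0`.
Then for every invertible matrix `A` over `K[Γ]` there is `γ ∈ Γ` such that every Hochschild
`1`-cocycle `f` on `K[Γ]` whose values on pairs of group elements lie in a finitely generated
subring of `K` takes the same value on the Dennis trace of `A` and on that of `γ`. -/
theorem result (K : Type u) [Field K] [CharZero K] (Γ : Type v) [Group Γ]
    (hΓ : (∀ H : Subgroup Γ, H.FG →
        {p : ℕ | p.Prime ∧ (∀ x y : H, x ^ p = y ^ p → x = y) ∧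
          ∀ g : H, g ≠ 1 → ∃ k : ℕ, ∀ x : H, x ^ p ^ k ≠ g}.Infinite) ∨
      ((∀ g : Γ, ∀ m : ℕ, 0 < m → g ^ m = 1 → g = 1) ∧
        ∃ (L : Type w) (_ : Field L) (_ : CharZero L) (N : ℕ) (φ : Γ →* GL (Fin N) L),
          Function.Injective φ))
    (n : ℕ) (A : (Matrix (Fin n) (Fin n) (MonoidAlgebra K Γ))ˣ) :
    ∃ γ : Γ, ∀ (s : Finset K) (f : Γ → Γ → K), (∀ x y, f x y ∈ Algebra.adjoin ℤ (s : Set K)) →
      (∀ x y z : Γ, f (x * y) z - f x (y * z) + f (z * x) y = 0) →
      (∑ i, ∑ j, ((A⁻¹).val i j).coeff.sum fun g b =>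
          (A.val j i).coeff.sum fun h a => b * a * f g h) = f γ⁻¹ γ := by
  obtain ⟨γ, hγ⟩ := field_mainH A
  refine ⟨γ, ?_⟩
  have hG : ∀ H : Subgroup Γ, H.FG →
        {p : ℕ | p.Prime ∧ (∀ x y : H, x ^ p = y ^ p → x = y) ∧
          ∀ g : H, g ≠ 1 → ∃ k : ℕ, ∀ x : H, x ^ p ^ k ≠ g}.Infinite := by
    rcases hΓ with h | ⟨htf, L, iL, iC, N, φ, hφ⟩
    · exact h
    · intro H hH
      have : Group.FG H := (Group.fg_iff_subgroup_fg H).2 hH
      have hfin := Pool.Agent.H23R2.finite_bad_primes (H := H)
        (by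
          intro g k hk hg
          apply Subtype.ext
          exact htf g.1 k hk (by simpa using congrArg Subtype.val hg))
        (φ.comp H.subtype) (hφ.comp H.subtype_injective)
      refine (Nat.infinite_setOfPred_prime.sdiff hfin).mono ?_
      rintro p ⟨hp, hgood⟩
      have hgood' : Pool.Agent.H23R2.GoodPrime H p := by
        by_contra hcon
        exact hgood ⟨hp, hcon⟩
      exact ⟨hp, hgood'.inj, hgood'.div⟩
  intro s f hs hf
  exact hγ (hG _ (grpF_fg A)) s f hs hf

end Pool.Agent.Results.MP_c052b4_al.HochschildTraceFields
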